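import Mathlib
import Pool.Agent.H8.Tau2
import Pool.Agent.H8.SG2

set_option autoImplicit false

namespace Pool.Agent.Results.MP_a930b8_gt.Strict

open Set Filter Topology Function Pool.Agent.H8.Tau Pool.Agent.H8.SG

/-- open `n`-cover -/
def On {Z : Type} [TopologicalSpace Z] (n : ℕ) (𝒰 : Set (Set Z)) : Prop :=
  Cov IsOpen 𝒰 ∧ ∀ F : Finset Z, F.card = n → ∃ U ∈ 𝒰, (F : Set Z) ⊆ U

/-- S₁((O_n)_n, T) -/
def S1n (Z : Type) [TopologicalSpace Z] : Prop :=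
  ∀ 𝒰 : ℕ → Set (Set Z), (∀ n, On n (𝒰 n)) →
    ∃ U : ℕ → Set Z, (∀ n, U n ∈ 𝒰 n) ∧ Ta IsOpen (range U)

def K : Set (Set (ℕ → Bool)) :=
  sUnion '' {s | s.Finite ∧ s ⊆ TopologicalSpace.countableBasis (ℕ → Bool)}

lemma K_fin {F O : Set (ℕ → Bool)} (hF : F.Finite) (hO : IsOpen O) (h : F ⊆ O) :
    ∃ V ∈ K, F ⊆ V ∧ V ⊆ O := by
  choose! f h1 h2 h3 using fun p (hp : p ∈ F) =>
    (TopologicalSpace.isBasis_countableBasis (ℕ → Bool)).exists_subset_of_mem_open (h hp) hO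
  refine ⟨_, ⟨f '' F, ⟨hF.image f, image_subset_iff.2 h1⟩, rfl⟩,
    fun p hp => ⟨_, ⟨p, hp, rfl⟩, h2 p hp⟩, ?_⟩
  rintro q ⟨_, ⟨p, hp, rfl⟩, hq⟩
  exact h3 p hp hq

section
variable {Z : Type} [TopologicalSpace Z] {d : Z → ℕ → Bool}

lemma yes (hd : IsInducing d) (hi : Injective d)
    (H : ∀ 𝒱 : ℕ → Set (Set (ℕ → Bool)), (∀ k, 𝒱 k ⊆ K) →
      (∀ k F, F.Finite → F ⊆ range d → ∃ V ∈ 𝒱 k, F ⊆ V) →
      ∃ V : ℕ → Set (ℕ → Bool), (∀ k, V k ∈ 𝒱 k) ∧ ∀ y ∈ range d, ∀ᶠ k in atTop, y ∈ V k) :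
    S1 (Om (Z := Z) IsOpen) (Ta IsOpen) := by
  intro 𝒰 h
  obtain ⟨V, h1, h2⟩ := H (fun k => {V | V ∈ K ∧ ∃ U ∈ 𝒰 k, d ⁻¹' V ⊆ U})
    (fun k V hV => hV.1) fun k F hF hs => by
      obtain ⟨U, hU, h3⟩ := (h k).2 _ (hF.preimage hi.injOn)
      obtain ⟨O, hO, rfl⟩ := hd.isOpen_iff.1 ((h k).1.1 U hU)
      obtain ⟨V, h4, h5, h6⟩ := K_fin hF hO fun p hp => by
        obtain ⟨z, rfl⟩ := hs hp
        exact h3 hp
      exact ⟨V, ⟨h4, _, hU, preimage_mono h6⟩, h5⟩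
  choose U h3 h4 using fun k => (h1 k).2
  exact (fin_ga (fun n => (h n).1) ⟨U, h3, fun z =>
    (h2 _ ⟨z, rfl⟩).mono fun k hk => h4 k hk⟩).imp fun _ hU => ⟨hU.1, hU.2.ta⟩

lemma miss (hF : Fn ⊆ range d) {l : ℕ} {T : Finset (Finset ℕ)} (hT : T.card ≤ l) :
    ∃ z, tr (d z) l ∉ T ∧ ∀ m ≠ l, tr (d z) m = ∅ := by
  obtain ⟨t, h1, h2, -⟩ := avoid (s := tr (fun _ => true) l) (T := T) (by rw [card_full]; omega)
  obtain ⟨z, hz⟩ := hF (show (fun i => decide (i ∈ t)) ∈ Fn by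
    filter_upwards [eventually_gt_atTop (t.sup id)] with i hi
    exact decide_eq_false fun h => absurd (Finset.le_sup (f := id) h) (not_le.2 hi))
  refine ⟨z, ?_, fun m hm => ?_⟩
  · have : tr (d z) l = t := by
      ext i
      simp only [mem_tr, hz, decide_eq_true_eq]
      exact ⟨fun h => h.2, fun h => ⟨(mem_tr.1 (h1 h)).1, h⟩⟩
    rwa [this]
  · ext i
    simp only [mem_tr, hz, decide_eq_true_eq, Finset.notMem_empty, iff_false]
    exact fun h => hm (h.1.symm.trans (mem_tr.1 (h1 h.2)).1)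

lemma no (hd : Continuous d) (hF : Fn ⊆ range d)
    (H : ∀ T : ℕ → Finset (Finset ℕ), (∀ l, (T l).card ≤ l) → ∃ x, cut 0 x ∈ range d ∧
      cut 1 x ∈ range d ∧ ∀ N b, b < 2 → ∃ l ≥ N, l % 2 = b ∧ tr x l ∉ T l) : ¬ S1n Z := by
  classical
  intro S
  obtain ⟨U, h1, h2⟩ := S (fun n => {U | ∃ T : Finset (Finset ℕ), ∅ ∈ T ∧ T.card ≤ n + 2 ∧
      U = {z | tr (d z) (n + 2) ∈ T}}) fun n => by
    refine ⟨⟨?_, eq_univ_of_forall fun z => ⟨_, ⟨{∅, tr (d z) (n + 2)}, by simp,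
      Finset.card_le_two.trans (by omega), rfl⟩, by simp⟩, ?_⟩, fun F hF => ?_⟩
    · rintro _ ⟨T, -, -, rfl⟩
      exact (open_tr _ T).preimage hd
    · rintro ⟨T, -, h, e⟩
      obtain ⟨z, hz, -⟩ := miss hF h
      exact hz (e ▸ mem_univ z : z ∈ {z | tr (d z) (n + 2) ∈ T})
    · refine ⟨_, ⟨insert ∅ (F.image fun z => tr (d z) (n + 2)), by simp,
        (Finset.card_insert_le _ _).trans ?_, rfl⟩, fun z hz =>
          Finset.mem_insert_of_mem (Finset.mem_image_of_mem _ hz)⟩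
      have := Finset.card_image_le (s := F) (f := fun z => tr (d z) (n + 2))
      omega
  choose T t1 t2 t3 using h1
  have inj : Injective U := fun a b e => by
    by_contra hne
    obtain ⟨z, h3, h4⟩ := miss hF (t2 a)
    have : z ∈ U b := by
      rw [t3, mem_setOf_eq, h4 _ (by omega)]
      exact t1 b
    rw [← e, t3] at this
    exact h3 this
  obtain ⟨x, ⟨y, hy⟩, ⟨z, hz⟩, h3⟩ := H (fun l => if 2 ≤ l then T (l - 2) else ∅) fun l => by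
    split_ifs with h
    · exact (t2 _).trans (by omega)
    · simp
  have key : ∀ b c, b < 2 → b ≠ c → ∀ y z, d y = cut b x → d z = cut c x →
      ¬ {V | V ∈ range U ∧ z ∈ V ∧ y ∉ V}.Finite := by
    intro b c hb hbc y z hy hz hf
    obtain ⟨N, hN⟩ := eventually_atTop.1 (ev_of_fin inj hf)
    obtain ⟨l, h4, h5, h6⟩ := h3 (N + 2) b hb
    obtain ⟨n, rfl⟩ : ∃ n, l = n + 2 := ⟨l - 2, by omega⟩
    refine hN n (by omega) ⟨⟨n, rfl⟩, ?_, ?_⟩
    · rw [t3, mem_setOf_eq, hz, tr_cut_ne _ (h5 ▸ hbc)]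
      exact t1 n
    · rw [t3, mem_setOf_eq, hy, tr_cut_eq _ h5]
      simpa using h6
  exact (h2.2.2 y z).elim (key 1 0 (by omega) (by omega) z y hz hy)
    (key 0 1 (by omega) (by omega) y z hy hz)
end

theorem result (h : Cardinal.continuum.{0} = Cardinal.aleph 1) :
    ∃ X : Set ℝ, S1 (Om (Z := X) IsOpen) (Ta IsOpen) ∧ ¬ S1n X := by
  obtain ⟨X, h1, h2, h3⟩ := tower h (K := K)
    ((countable_setOf_finite_subset (TopologicalSpace.countable_countableBasis _)).image _)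
    (by
      rintro _ ⟨s, hs, rfl⟩
      exact isOpen_sUnion fun V hV => TopologicalSpace.isOpen_of_mem_countableBasis (hs.2 hV))
  let H := cantorSetHomeomorphNatToBool
  clear_value H
  let R : Set ℝ := {r | ∃ h : r ∈ cantorSet, H ⟨r, h⟩ ∈ X}
  have hR : R ⊆ cantorSet := fun r hr => hr.1
  have hd : IsEmbedding (H ∘ inclusion hR) := H.isEmbedding.comp (IsEmbedding.inclusion hR)
  have hr : range (H ∘ inclusion hR) = X := by
    ext y
    refine ⟨?_, fun hy => ⟨⟨(H.symm y).1, (H.symm y).2, by simpa using hy⟩, by simp⟩⟩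
    rintro ⟨z, rfl⟩
    exact z.2.2
  exact ⟨R, yes hd.isInducing hd.injective (hr ▸ h2), no hd.continuous (hr ▸ h1) (hr ▸ h3)⟩

end Pool.Agent.Results.MP_a930b8_gt.Strict
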